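import Pool.Agent.Run7.h878.RB.Hard
import Pool.Agent.Run7.h878.RB.Mem
import Pool.Agent.H642R2.TMSim

/-!
# The directed red-blue cut problem is NP-complete

Given a digraph whose arcs are red or blue and bounds `r`, `b`, is there a nonempty proper subset
`X` of the vertex set such that at most `r` red and at most `b` blue arcs leave `X`?

In a directed graph a cut `X` can be forced to contain a vertex `s` and to avoid a vertex `t` by
adding many arcs from every vertex to `s` and many arcs from `t` to every vertex. Similarly many
arcs from `p` to `q` force that `q` is in `X` if `p` is. The reduction is from independent set: the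
nodes are the source, the sink, the vertices `u` and the pairs `(u, v)` of the given graph; a pair
in `X` forces its two members into `X`; there is a red arc from the source to every pair that is
equal or not adjacent, and a blue arc from every vertex to the sink. A cut with at most `|Q| - k ^ 2`
red arcs and at most `k` blue arcs is given by the square of an independent set of size `k`. Nodes
are blown up to complete digraphs, so that there are no parallel arcs.
-/

namespace Pool.Agent.Results.MP_ac2b6c_lc.RedBlueCutNPComplete

open Pool.Agent.H38.NP Pool.Agent.Run7.h878.RB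

/-- An NP-complete language is in P if and only if P = NP. -/
theorem inP_iff {L : Set (List Bool)} (h : NPComplete L) : InP L ↔ ∀ A, InNP A → InP A := by
  constructor
  · rintro ⟨V, hV, hV'⟩ A hA
    obtain ⟨f, hf, hf'⟩ := h.2 A hA
    exact ⟨fun x => V (f x), Pool.Agent.H642R2.TMSim.polyTime_comp hV hf,
      fun x => (hf' x).trans (hV' _)⟩
  · intro hP
    exact hP L h.1

/-- **The directed red-blue cut problem is NP-complete**, both for digraphs in which parallel arcs
are allowed and for simple digraphs; so each of the two versions has a polynomial-time algorithm if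
and only if P = NP. -/
theorem result :
    (NPComplete (lang fun I : Inst => IsDigraph I ∧ HasCut I) ∧
      NPComplete (lang fun I : Inst => IsSimple I ∧ HasCut I)) ∧
    (InP (lang fun I : Inst => IsDigraph I ∧ HasCut I) ↔ ∀ A, InNP A → InP A) ∧
    (InP (lang fun I : Inst => IsSimple I ∧ HasCut I) ↔ ∀ A, InNP A → InP A) := by
  have h1 : NPComplete (lang fun I : Inst => IsDigraph I ∧ HasCut I) :=
    ⟨inNP_digraph, nph.npHard fun I hI =>
      ⟨fun h => ⟨fun e he => ⟨(hI.1 e he).1, (hI.1 e he).2.1⟩, h⟩, fun h => h.2⟩⟩
  have h2 : NPComplete (lang fun I : Inst => IsSimple I ∧ HasCut I) :=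
    ⟨inNP_simple, nph.npHard fun I hI => ⟨fun h => ⟨hI, h⟩, fun h => h.2⟩⟩
  exact ⟨⟨h1, h2⟩, inP_iff h1, inP_iff h2⟩

end Pool.Agent.Results.MP_ac2b6c_lc.RedBlueCutNPComplete
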